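import Pool.Agent.H3.SF.Tg2
import Pool.Agent.H62.HIL.Eig

/-!
# MP_70ba79_ag, THEOREM S: row PRT, the result on sections
-/

set_option autoImplicit false

namespace Pool.Agent.H94.SF

open MvPolynomial SC Pool.Agent.H27.LV
open Pool.Agent.H84.SM (dp cr dt)
open Pool.Agent.H92.SF Pool.Agent.H3.SF

section A

set_option linter.unusedSectionVars false

variable {k F : Type} [Field k] [IsAlgClosed k] [CharZero k] [Field F] [Algebra k F]

/-- outside finitely many first order equations `P` has a value, and the value is not zero or the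
degree is bounded or the curve solves one of finitely many connections -/
def Gd (u : Fin 3 → F) (dd : Fin 3 → Derivation k F F) (J : MvPolynomial (Fin 3) k) (m : ℕ)
    (G : F) (P : Q2 F) : Prop :=
  ∃ (B : ℕ) (cs : Set (Q2 F)) (ps : Set (ℕ × MvPolynomial (Fin 3) k × MvPolynomial (Fin 3) F)),
  cs.Finite ∧ ps.Finite ∧ (∀ c ∈ cs, FE u dd c) ∧
  (∀ p ∈ ps, 2 * p.1 ≤ m ∧ Cnn u dd J m G p.1 p.2.1 p.2.2) ∧
  ∀ (K : Type) [Field K] [Algebra k K] [Algebra.EssFiniteType k K], Algebra.trdeg k K = 1 →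
  ∀ (D : Derivation k K K), D ≠ 0 → ∀ (φ : Bb k u →ₐ[k] K) (x : Fin 3 → K) (g : K)
  (S : Finset (DV k K)), Crf u J m G φ x g S → Avd u φ D x cs →
  (∃ PK, VQ u φ P PK ∧ evc D x PK ≠ 0) ∨ (deg k x ≤ B * max 0 (canDeg D + S.card)) ∨
  ∃ p ∈ ps, ∀ b0 : MvPolynomial (Fin 3) (Bb k u),
    map ((Bb k u).val : Bb k u →+* F) b0 = p.2.2 →
    aeval x p.2.1 * dt x (fun i => D (x i)) (fun i => D (D (x i))) +
      eval₂ (φ : Bb k u →+* K) (fun i => D (x i)) b0 = 0

variable {u : Fin 3 → F} {dd : Fin 3 → Derivation k F F} {J : MvPolynomial (Fin 3) k} {m : ℕ}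
  {G : F}

theorem gd_mul (hVLQ : T_VLQ) {P Q : Q2 F} (hP : Gd u dd J m G P) (hQ : Gd u dd J m G Q) :
    Gd u dd J m G (P * Q) := by
  obtain ⟨B1, cs1, ps1, hc1, hp1, hf1, hn1, h1⟩ := hP
  obtain ⟨B2, cs2, ps2, hc2, hp2, hf2, hn2, h2⟩ := hQ
  refine ⟨B1 + B2, cs1 ∪ cs2, ps1 ∪ ps2, hc1.union hc2, hp1.union hp2, ?_, ?_, ?_⟩
  · rintro c (hc | hc)
    · exact hf1 c hc
    · exact hf2 c hc
  · rintro p (hp | hp)
    · exact hn1 p hp
    · exact hn2 p hp
  · intro K _ _ _ htr D hD φ x g S hS hA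
    have hA1 : Avd u φ D x cs1 := fun c hc => hA c (Or.inl hc)
    have hA2 : Avd u φ D x cs2 := fun c hc => hA c (Or.inr hc)
    have hmax : (0 : ℤ) ≤ max 0 (canDeg D + S.card) := le_max_left _ _
    rcases h1 K htr D hD φ x g S hS hA1 with ⟨PK, hPK, hPK0⟩ | h3 | ⟨p, hp, h3⟩
    · rcases h2 K htr D hD φ x g S hS hA2 with ⟨QK, hQK, hQK0⟩ | h4 | ⟨p, hp, h4⟩
      · left
        refine ⟨PK * QK, ((hVLQ k F K u φ).2.1 P Q PK QK hPK hQK).2, ?_⟩
        rw [map_mul]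
        exact mul_ne_zero hPK0 hQK0
      · right; left
        push_cast
        nlinarith [mul_nonneg (Nat.cast_nonneg (α := ℤ) B1) hmax]
      · right; right
        exact ⟨p, Or.inr hp, h4⟩
    · right; left
      push_cast
      nlinarith [mul_nonneg (Nat.cast_nonneg (α := ℤ) B2) hmax]
    · right; right
      exact ⟨p, Or.inl hp, h3⟩

theorem vq_one (hVLQ : T_VLQ) (hVLA : T_VLA) {K : Type} [Field K] [Algebra k K]
    (φ : Bb k u →ₐ[k] K) : VQ u φ (1 : Q2 F) (1 : Q2 K) := by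
  have h1 := (hVLA k F K u φ).2.2.2.2 1
  have h2 := (hVLQ k F K u φ).2.2.2.2.1 _ _ h1
  rwa [map_one, map_one, map_one, map_one] at h2

theorem gd_one (hVLQ : T_VLQ) (hVLA : T_VLA) : Gd u dd J m G (1 : Q2 F) := by
  refine ⟨0, ∅, ∅, Set.finite_empty, Set.finite_empty, by simp, by simp, ?_⟩
  intro K _ _ _ htr D hD φ x g S hS hA
  left
  exact ⟨1, vq_one hVLQ hVLA φ, by rw [map_one]; exact one_ne_zero⟩

theorem gd_list (hVLQ : T_VLQ) (hVLA : T_VLA) (s : List (Q2 F))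
    (hs : ∀ P ∈ s, Gd u dd J m G P) : Gd u dd J m G s.prod := by
  induction s with
  | nil =>
    rw [List.prod_nil]
    exact gd_one hVLQ hVLA
  | cons a s ih =>
    rw [List.prod_cons]
    exact gd_mul hVLQ (hs a (by simp)) (ih fun P hP => hs P (by simp [hP]))

variable {δ j0 c0 : ℕ}

theorem gd_const (hVLQ : T_VLQ) (hVLA : T_VLA) (hVQE : T_VQE) (hTWM : T_TWM)
    (hS : Sfc u dd δ j0 c0 J) {t : ℤ} {a : F} (ha : a ≠ 0) (hat : Hm k (eu u dd) t a) :
    Gd u dd J m G (cq a) := by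
  obtain ⟨-, -, -, h4, -⟩ := hTWM k F u dd
  have hinv : Hm k (eu u dd) (-t) a⁻¹ := by
    have := Pool.Agent.H62.HIL.hm_div (Pool.Agent.H62.HIL.hm_one (κ := k) (E := eu u dd)) hat ha
    rwa [zero_sub, one_div] at this
  obtain ⟨c1, hc1, hc1v⟩ := hVQE k F u dd δ j0 c0 J hS 0 t (cq a) (h4 t a hat)
  obtain ⟨c2, hc2, hc2v⟩ := hVQE k F u dd δ j0 c0 J hS 0 (-t) (cq a⁻¹) (h4 _ _ hinv)
  refine ⟨0, {c1, c2}, ∅, by simp, Set.finite_empty, ?_, by simp, ?_⟩
  · rintro c (rfl | rfl)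
    · exact hc1
    · exact hc2
  · intro K _ _ _ htr D hD φ x g S hS' hA
    obtain ⟨W1, hW1⟩ := hc1v K φ D x fun c hc => hA c (by rw [hc]; simp)
    obtain ⟨W2, hW2⟩ := hc2v K φ D x fun c hc => hA c (by rw [hc]; simp)
    left
    refine ⟨W1, hW1, fun h0 => ?_⟩
    have h5 := ((hVLQ k F K u φ).2.1 _ _ _ _ hW1 hW2).2
    rw [← map_mul, mul_inv_cancel₀ ha, map_one] at h5
    have h6 := (hVLQ k F K u φ).1 _ _ _ h5 (vq_one hVLQ hVLA φ)
    have h7 : evc D x (W1 * W2) = 1 := by rw [h6, map_one]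
    rw [map_mul, h0, zero_mul] at h7
    exact zero_ne_one h7

/-- polynomials of degree 0 in `w` -/
theorem gd_low (hVLQ : T_VLQ) (hVLA : T_VLA) (hVQE : T_VQE) (hTWM : T_TWM) (hHDN : T_HDN)
    (hd : Hd k u (eu u dd) δ)
    (hS : Sfc u dd δ j0 c0 J) {w : ℕ} {τ : ℤ} {P : Q2 F} (hP : P ≠ 0) (hPd : P.natDegree = 0)
    (hPt : Tw u dd w τ P) : Gd u dd J m G P := by
  classical
  obtain ⟨h1, -, -, h4, -⟩ := hTWM k F u dd
  -- common denominator
  have hden : ∃ (h : ℕ) (H : MvPolynomial (Fin 3) k), H ≠ 0 ∧ H.IsHomogeneous h ∧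
      ∀ a : Fin 2 →₀ ℕ, Itg k u (aeval u H * (P.coeff 0).coeff a) := by
    have hone : ∀ a : Fin 2 →₀ ℕ, ∃ (h : ℕ) (H : MvPolynomial (Fin 3) k), H ≠ 0 ∧
        H.IsHomogeneous h ∧ Itg k u (aeval u H * (P.coeff 0).coeff a) := by
      intro a
      exact hHDN k F 3 δ u (eu u dd) hd _ _ (hPt.2 0 a)
    choose h H hH0 hHh hHi using hone
    refine ⟨∑ a ∈ (P.coeff 0).support, h a, ∏ a ∈ (P.coeff 0).support, H a,
      Finset.prod_ne_zero_iff.mpr fun a _ => hH0 a,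
      IsHomogeneous.prod _ _ _ fun a _ => hHh a, fun a => ?_⟩
    by_cases ha : a ∈ (P.coeff 0).support
    · rw [← Finset.mul_prod_erase _ _ ha, map_mul, mul_right_comm]
      refine RingHom.IsIntegralElem.mul _ (hHi a) ?_
      exact RingHom.isIntegralElem_map _
    · have h5 : (P.coeff 0).coeff a = 0 := by simpa using ha
      rw [h5, mul_zero]
      exact (Bb k u).zero_mem
  obtain ⟨h, H, hH0, hHh, hHi⟩ := hden
  have hHu0 : aeval u H ≠ 0 := fun h0 => hH0 (hS.ind (by rw [h0, map_zero]))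
  have hE1 : ∀ i, Hm k (eu u dd) 1 (u i) := by
    intro i
    have := hd.eul i
    unfold Hm
    rw [this]
    simp
  have hHm : Hm k (eu u dd) h (aeval u H) := Pool.Agent.H62.HIL.hm_aeval hE1 hHh
  have hHint : Itg k u (aeval u H) := RingHom.isIntegralElem_map _
  obtain ⟨c2, hc2, hc2v⟩ := hVQE k F u dd δ j0 c0 J hS w τ P hPt
  have hcq0 : (cq (aeval u H) : Q2 F) ≠ 0 := by
    intro h0
    have : (cq (aeval u H) : Q2 F) = Polynomial.C (C (aeval u H)) := rfl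
    rw [this, Polynomial.C_eq_zero, C_eq_zero] at h0
    exact hHu0 h0
  have hFE : FE u dd (cq (aeval u H) * P) := by
    refine ⟨mul_ne_zero hcq0 hP, ?_, ?_, ⟨0 + w, h + τ, h1 _ _ _ _ _ _ (h4 _ _ hHm) hPt⟩⟩
    · have : (cq (aeval u H) : Q2 F) = Polynomial.C (C (aeval u H)) := rfl
      rw [Polynomial.natDegree_mul hcq0 hP, hPd, this, Polynomial.natDegree_C]
    · intro j a
      have : (cq (aeval u H) : Q2 F) = Polynomial.C (C (aeval u H)) := rfl
      rw [this, Polynomial.coeff_C_mul, coeff_C_mul]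
      rcases Nat.eq_zero_or_pos j with rfl | hj
      · exact hHi a
      · rw [Polynomial.coeff_eq_zero_of_natDegree_lt (by omega), coeff_zero, mul_zero]
        exact (Bb k u).zero_mem
  refine ⟨0, {cq (aeval u H) * P, c2}, ∅, by simp, Set.finite_empty, ?_, by simp, ?_⟩
  · rintro c (rfl | rfl)
    · exact hFE
    · exact hc2
  · intro K _ _ _ htr D hD φ x g S hS' hA
    obtain ⟨W, hW⟩ := hc2v K φ D x fun c hc => hA c (by rw [hc]; simp)
    left
    refine ⟨W, hW, fun h0 => ?_⟩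
    have h5 : VQ u φ (cq (aeval u H)) (cq (φ ⟨aeval u H, hHint⟩)) :=
      (hVLQ k F K u φ).2.2.2.2.1 _ _ ((hVLA k F K u φ).2.2.2.1 ⟨aeval u H, hHint⟩)
    have h6 := ((hVLQ k F K u φ).2.1 _ _ _ _ h5 hW).2
    refine hA (cq (aeval u H) * P) (by simp) _ h6 ?_
    rw [map_mul, h0, mul_zero]

/-- irreducible polynomials with sections which are not divisible by high powers -/
theorem gd_sel (hSEL : T_SEL) (hVQE : T_VQE) (hS : Sfc u dd δ j0 c0 J) (hm : 4 ≤ m)
    (hG : Crd u dd m G) {n w : ℕ} {τ : ℤ} {P : Q2 F} (hPi : Irreducible P)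
    (hPd : 1 ≤ P.natDegree) (hPt : Tw u dd w τ P) (hM : ¬ Mlt u dd J j0 m G n P) :
    Gd u dd J m G P := by
  obtain ⟨cs, hcs, hfe, hcv⟩ := hSEL k F u dd δ j0 c0 J hS m G hm hG n w τ P hPi hPd hPt
  obtain ⟨c2, hc2, hc2v⟩ := hVQE k F u dd δ j0 c0 J hS w τ P hPt
  refine ⟨n, insert c2 cs, ∅, hcs.insert _, Set.finite_empty, ?_, by simp, ?_⟩
  · rintro c (rfl | hc)
    · exact hc2
    · exact hfe c hc
  · intro K _ _ _ htr D hD φ x g S hS' hA
    obtain ⟨W, hW⟩ := hc2v K φ D x fun c hc => hA c (by rw [hc]; simp)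
    by_cases h0 : evc D x W = 0
    · right; left
      have hmax : (0 : ℤ) ≤ max 0 (canDeg D + S.card) := le_max_left _ _
      have hmax2 : canDeg D + S.card ≤ max 0 (canDeg D + S.card) := le_max_right _ _
      by_contra hlt
      push Not at hlt
      have h1 : (0 : ℤ) ≤ n * max 0 (canDeg D + S.card) := mul_nonneg (Nat.cast_nonneg _) hmax
      refine hM (hcv K htr D hD φ x g S hS' (fun c hc => hA c (Or.inr hc)) W hW h0
        (by exact_mod_cast lt_of_le_of_lt h1 hlt) (lt_of_le_of_lt ?_ hlt))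
      exact mul_le_mul_of_nonneg_left hmax2 (Nat.cast_nonneg _)
    · left
      exact ⟨W, hW, h0⟩

/-- monic polynomials of degree 1 with a connection -/
theorem gd_con (hVQE : T_VQE) (hS : Sfc u dd δ j0 c0 J)
    {P : Q2 F} (hPt : Tw u dd 3 3 P) {α : ℕ} {A : MvPolynomial (Fin 3) k}
    {b : MvPolynomial (Fin 3) F} (hα : 2 * α ≤ m) (hA : Cnn u dd J m G α A b)
    (hv : ∀ (K : Type) [Field K] [Algebra k K] (φ : Bb k u →ₐ[k] K) (D : Derivation k K K)
    (x : Fin 3 → K) (W : Q2 K) (b0 : MvPolynomial (Fin 3) (Bb k u)),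
    (∀ (i : Fin 3) (b : Bb k u), (b : F) = u i → φ b = x i) → (∃ j, x j = 1) →
    VQ u φ P W → evc D x W = 0 → map ((Bb k u).val : Bb k u →+* F) b0 = b →
    aeval x A * dt x (fun i => D (x i)) (fun i => D (D (x i))) +
      eval₂ (φ : Bb k u →+* K) (fun i => D (x i)) b0 = 0) :
    Gd u dd J m G P := by
  obtain ⟨c2, hc2, hc2v⟩ := hVQE k F u dd δ j0 c0 J hS 3 3 P hPt
  refine ⟨0, {c2}, {(α, A, b)}, by simp, by simp, ?_, ?_, ?_⟩
  · rintro c rfl
    exact hc2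
  · rintro p rfl
    exact ⟨hα, hA⟩
  · intro K _ _ _ htr D hD φ x g S hS' hAv
    obtain ⟨W, hW⟩ := hc2v K φ D x hAv
    by_cases h0 : evc D x W = 0
    · right; right
      refine ⟨_, rfl, fun b0 hb0 => ?_⟩
      exact hv K φ D x W b0 hS'.cx hS'.one hW h0 hb0
    · left
      exact ⟨W, hW, h0⟩

end A

/-- PRT -/
theorem pf_PRT (hNEG : T_NEG) (hMLF : T_MLF) (hMLT : T_MLT) (hCON : T_CON) (hSEL : T_SEL)
    (hFAC : T_FAC) (hVQE : T_VQE) (hEVF : T_EVF) (hVLQ : T_VLQ) (hVLA : T_VLA) (hTWM : T_TWM)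
    (_hHFB : T_HFB) (hHDN : T_HDN) (hSF1 : T_SF1) : T_PRT := by
  intro δ j0 c0
  obtain ⟨m1, hm1⟩ := hNEG δ j0 c0
  obtain ⟨m2, hm2⟩ := hMLF δ j0 c0
  obtain ⟨q, m3, hq, hm3⟩ := hCON δ j0 c0
  obtain ⟨m4, hm4⟩ := hMLT δ j0 c0 q hq
  refine ⟨m1 + m2 + m3 + m4 + 4, ?_⟩
  intro k F _ _ _ _ _ u dd J hS m G hm hG
  obtain ⟨n0, t0, V0, hnt, hV0, hV0E⟩ := hm1 k F u dd J hS m G (by omega) hG
  have hd : Hd k u (eu u dd) δ := (hSF1 k F u dd δ j0 c0 J hS).1
  have hV0t : Tw u dd n0 (-(t0 : ℤ)) V0 := hV0E.1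
  obtain ⟨s, c, t, hc0, hct, hV0s, hs⟩ := hFAC k F u dd δ j0 c0 J hS n0 _ V0 hV0 hV0t
  obtain ⟨t1, t2, t3, t4, t5⟩ := hTWM k F u dd
  -- all factors are good
  have hgood : ∀ P ∈ s, Gd u dd J m G P := by
    intro P hPs
    obtain ⟨hPi, w, τ, hPt⟩ := hs P hPs
    rcases Nat.eq_zero_or_pos P.natDegree with hPd | hPd
    · exact gd_low hVLQ hVLA hVQE hTWM hHDN hd hS hPi.ne_zero hPd hPt
    have hlead : P.coeff P.natDegree ≠ 0 := by
      rw [Polynomial.coeff_natDegree]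
      exact Polynomial.leadingCoeff_ne_zero.mpr hPi.ne_zero
    have hw3 : 3 * P.natDegree ≤ w := by
      by_contra hlt
      push Not at hlt
      exact hlead ((hPt.1 _).2 hlt)
    by_cases hw : 4 ≤ w
    · obtain ⟨n, -, hn⟩ := hm2 k F u dd J hS m G (by omega) hG w τ P hw hPi.ne_zero hPd hPt
      exact gd_sel hSEL hVQE hS (by omega) hG hPi hPd hPt hn
    have hweq : w = 3 := by omega
    have hdeq : P.natDegree = 1 := by omega
    subst hweq
    rw [hdeq] at hlead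
    have hc1 : P.coeff 1 = C ((P.coeff 1).coeff 0) := by
      have h5 : (P.coeff 1).IsHomogeneous 0 := (hPt.1 1).1 (by norm_num)
      exact totalDegree_eq_zero_iff_eq_C.mp (Nat.le_zero.mp h5.totalDegree_le)
    obtain ⟨a, ha⟩ : ∃ a, a = (P.coeff 1).coeff 0 := ⟨_, rfl⟩
    rw [← ha] at hc1
    have ha0 : a ≠ 0 := by
      intro h0
      rw [h0, C_0] at hc1
      exact hlead hc1
    have hat : Hm k (eu u dd) (τ - 3) a := by
      have h5 := hPt.2 1 0
      rw [← ha] at h5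
      have h6 : τ - 2 * ((3 : ℕ) : ℤ) + 3 * ((1 : ℕ) : ℤ) = τ - 3 := by push_cast; ring
      rwa [h6] at h5
    have hainv : Hm k (eu u dd) (-(τ - 3)) a⁻¹ := by
      have := Pool.Agent.H62.HIL.hm_div (Pool.Agent.H62.HIL.hm_one (κ := k) (E := eu u dd)) hat ha0
      rwa [zero_sub, one_div] at this
    have hP'1 : (cq a⁻¹ * P).coeff 1 = 1 := by
      have : (cq a⁻¹ : Q2 F) = Polynomial.C (C a⁻¹) := rfl
      rw [this, Polynomial.coeff_C_mul, hc1, ← C_mul, inv_mul_cancel₀ ha0, C_1]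
    have hP't : Tw u dd 3 3 (cq a⁻¹ * P) := by
      have h5 := t1 _ _ _ _ _ _ (t4 _ _ hainv) hPt
      have h6 : -(τ - 3) + τ = 3 := by ring
      rwa [zero_add, h6] at h5
    have haa : (cq a : Q2 F) * cq a⁻¹ = 1 := by
      rw [← map_mul, mul_inv_cancel₀ ha0, map_one]
    have hunit : IsUnit (cq a⁻¹ : Q2 F) := by
      refine ⟨⟨cq a⁻¹, cq a, ?_, haa⟩, rfl⟩
      rw [mul_comm]
      exact haa
    have hP'i : Irreducible (cq a⁻¹ * P) := by
      rw [irreducible_isUnit_mul hunit]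
      exact hPi
    have hP'd : 1 ≤ (cq a⁻¹ * P).natDegree := by
      refine Polynomial.le_natDegree_of_ne_zero ?_
      rw [hP'1]
      exact one_ne_zero
    have hPeq : P = cq a * (cq a⁻¹ * P) := by
      rw [← mul_assoc, haa, one_mul]
    rw [hPeq]
    refine gd_mul hVLQ (gd_const hVLQ hVLA hVQE hTWM hS ha0 hat) ?_
    by_cases hH : ∃ (j : ℕ) (e : Fin 3 →₀ ℕ), ∀ (h : ℕ) (H : MvPolynomial (Fin 3) k), q * h < m →
        H.IsHomogeneous h → H ≠ 0 →
        ¬ Itg k u (aeval u H * (((Ps u dd J m G (cq a⁻¹ * P)).coeff j).coeff e / G))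
    · obtain ⟨n, -, hn⟩ := hm4 k F u dd J hS m G (by omega) hG _ hP'1 hP't hH
      exact gd_sel hSEL hVQE hS (by omega) hG hP'i hP'd hP't hn
    · push Not at hH
      obtain ⟨α, A, b, hα, hA, hv⟩ := hm3 k F u dd J hS m G (by omega) hG _ hP'1 hP't hH
      exact gd_con hVQE hS hP't hα hA hv
  have hgV : Gd u dd J m G V0 := by
    rw [hV0s]
    exact gd_mul hVLQ (gd_const hVLQ hVLA hVQE hTWM hS hc0 hct) (gd_list hVLQ hVLA s hgood)
  obtain ⟨B, cs, ps, hcs, hps, hfe, hcn, hgv⟩ := hgV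
  refine ⟨B + n0, cs, ps, hcs, hps, hfe, hcn, ?_⟩
  intro K _ _ _ htr D hD φ x g S hS'
  have hmax : (0 : ℤ) ≤ max 0 (canDeg D + S.card) := le_max_left _ _
  have hmax2 : canDeg D + S.card ≤ max 0 (canDeg D + S.card) := le_max_right _ _
  by_cases hA : Avd u φ D x cs
  · rcases hgv K htr D hD φ x g S hS' hA with ⟨W, hW, hW0⟩ | h5 | h5
    · left
      have h6 := hEVF k F u dd δ j0 c0 J hS m G (by omega) hG K htr D hD φ x g S hS' n0 t0 0 3 n0 3
        (-(t0 : ℤ)) V0 Polynomial.X V0 Polynomial.X W hV0E hV0 (by rw [pow_zero, one_mul])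
        (by rw [Polynomial.natDegree_X]) t5 hV0t (hVLQ k F K u φ).2.2.2.2.2.1 hW hW0
        (by rw [Polynomial.derivative_X, map_one]; exact one_ne_zero)
      simp only [Nat.cast_zero, mul_zero, zero_mul, sub_zero] at h6
      have h7 : (1 : ℤ) ≤ (t0 : ℤ) - 2 * n0 * j0 := by
        have : (2 * n0 * j0 : ℤ) < t0 := by exact_mod_cast hnt
        linarith
      have h8 : (0 : ℤ) ≤ deg k x := Nat.cast_nonneg _
      have h9 : (n0 : ℤ) * (canDeg D + S.card) ≤ n0 * max 0 (canDeg D + S.card) :=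
        mul_le_mul_of_nonneg_left hmax2 (Nat.cast_nonneg _)
      have h10 : (0 : ℤ) ≤ B * max 0 (canDeg D + S.card) := mul_nonneg (Nat.cast_nonneg _) hmax
      push_cast
      nlinarith
    · left
      have h10 : (0 : ℤ) ≤ n0 * max 0 (canDeg D + S.card) := mul_nonneg (Nat.cast_nonneg _) hmax
      push_cast
      nlinarith
    · right; right
      exact h5
  · right; left
    unfold Avd at hA
    push Not at hA
    exact hA

end Pool.Agent.H94.SF
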