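import Pool.Agent.H3.SF.Targets
import Pool.Agent.H14.SQ.ORD

/-!
# MP_634266_nt, row UUF: the proportion of the exponents not killed by a finite set of primes
-/

set_option autoImplicit false

open Finset Filter Topology Pool.Agent.H99.SQ Pool.Agent.H3.SF

namespace Pool.Agent.H94.SF

theorem kill_add {p : ℕ} (M l n : ℕ) (hM : mm p ∣ M) : Kill p n (l + M) ↔ Kill p n l := by
  unfold Kill
  have h1 : (2 : ZMod (p ^ 2)) ^ M = 1 := orderOf_dvd_iff_pow_eq_one.1 hM
  rw [pow_add, h1, mul_one]

open Classical in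
theorem UC_eq (F : Finset ℕ) (n N : ℕ) :
    UC F n N = Nat.count (fun l => ∀ p ∈ F, ¬ Kill p n l) N := by
  rw [Nat.count_eq_card_filter_range]
  unfold UC
  apply congrArg
  apply Finset.ext
  intro l
  simp only [mem_filter]

theorem UC_add (F : Finset ℕ) (n M a : ℕ) (hM : ∀ p ∈ F, mm p ∣ M) :
    UC F n (M + a) = UC F n M + UC F n a := by
  classical
  rw [UC_eq, UC_eq, UC_eq, Nat.count_add]
  congr 1
  have : (fun k => ∀ p ∈ F, ¬ Kill p n (M + k)) = fun k => ∀ p ∈ F, ¬ Kill p n k := by
    funext k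
    refine propext (forall_congr' fun p => forall_congr' fun hp => not_congr ?_)
    rw [add_comm]
    exact kill_add M k n (hM p hp)
  simp only [this]

theorem UC_zero (F : Finset ℕ) (n : ℕ) : UC F n 0 = 0 := by
  unfold UC
  simp

theorem UC_le (F : Finset ℕ) (n N : ℕ) : UC F n N ≤ N := by
  classical
  unfold UC
  exact (card_filter_le _ _).trans (card_range N).le

theorem UC_mul (F : Finset ℕ) (n M a : ℕ) (hM : ∀ p ∈ F, mm p ∣ M) (q : ℕ) :
    UC F n (M * q + a) = q * UC F n M + UC F n a := by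
  induction q with
  | zero => simp
  | succ q ih =>
    have e : M * (q + 1) + a = M + (M * q + a) := by ring
    rw [e, UC_add F n M _ hM, ih]
    ring

theorem pf_UUF : T_UUF := by
  classical
  intro F n hF
  have hmm : ∀ p ∈ F, 0 < mm p := fun p hp => (Pool.Agent.H14.SQ.pf_ORD p (hF p hp)).1
  have hP0 : 0 < MP F := prod_pos hmm
  have hPd : ∀ p ∈ F, mm p ∣ MP F := fun p hp => dvd_prod_of_mem _ hp
  have hP0' : (0 : ℝ) < (MP F : ℝ) := by exact_mod_cast hP0
  have hU0 : 0 ≤ UU F n := by
    unfold UU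
    positivity
  have hU1 : UU F n ≤ 1 := by
    unfold UU
    rw [div_le_one hP0']
    exact_mod_cast UC_le F n (MP F)
  refine ⟨⟨hU0, hU1⟩, ?_, ?_, ?_⟩
  · intro M N hM hMd
    have h1 : UC F n (M * MP F) = MP F * UC F n M := by
      have := UC_mul F n M 0 hMd (MP F)
      rw [UC_zero] at this
      simpa using this
    have h2 : UC F n (MP F * M) = M * UC F n (MP F) := by
      have := UC_mul F n (MP F) 0 hPd M
      rw [UC_zero] at this
      simpa using this
    have h3 : (MP F : ℝ) * (UC F n M : ℝ) = M * (UC F n (MP F) : ℝ) := by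
      have : MP F * UC F n M = M * UC F n (MP F) := by rw [← h1, ← h2, mul_comm]
      exact_mod_cast this
    have h4 : (UC F n M : ℝ) = UU F n * M := by
      unfold UU
      rw [div_mul_eq_mul_div, eq_div_iff hP0'.ne']
      linarith
    have h5 := UC_mul F n M (N % M) hMd (N / M)
    rw [Nat.div_add_mod] at h5
    have h6 : (N : ℝ) = M * ((N / M : ℕ) : ℝ) + ((N % M : ℕ) : ℝ) := by
      exact_mod_cast (Nat.div_add_mod N M).symm
    have h7 : (UC F n N : ℝ) - UU F n * N = (UC F n (N % M) : ℝ) - UU F n * ((N % M : ℕ) : ℝ) := by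
      rw [h5]
      push_cast
      rw [h4, h6]
      ring
    rw [h7]
    have h8 : (UC F n (N % M) : ℝ) ≤ ((N % M : ℕ) : ℝ) := by exact_mod_cast UC_le F n (N % M)
    have h9 : ((N % M : ℕ) : ℝ) ≤ M := by exact_mod_cast (Nat.mod_lt N hM).le
    have h10 : (0 : ℝ) ≤ ((N % M : ℕ) : ℝ) := Nat.cast_nonneg _
    have h11 : (0 : ℝ) ≤ (UC F n (N % M) : ℝ) := Nat.cast_nonneg _
    have h12 : UU F n * ((N % M : ℕ) : ℝ) ≤ 1 * ((N % M : ℕ) : ℝ) :=
      mul_le_mul_of_nonneg_right hU1 h10
    have h13 : 0 ≤ UU F n * ((N % M : ℕ) : ℝ) := mul_nonneg hU0 h10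
    rw [abs_le]
    constructor <;> linarith
  · intro n' hnn
    have h1 : ∀ l, (∀ p ∈ F, ¬ Kill p n l) ↔ ∀ p ∈ F, ¬ Kill p n' l := by
      intro l
      refine forall_congr' fun p => forall_congr' fun hp => not_congr ?_
      unfold Kill
      have h2 : (n : ZMod (p ^ 2)) = (n' : ZMod (p ^ 2)) := by
        rw [ZMod.natCast_eq_natCast_iff]
        exact hnn.of_dvd (dvd_prod_of_mem (fun p => p ^ 2) hp)
      rw [h2]
    unfold UU
    rw [UC_eq, UC_eq]
    simp only [h1]
  · have h1 : UU F n = 0 ↔ UC F n (MP F) = 0 := by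
      unfold UU
      rw [div_eq_zero_iff]
      constructor
      · rintro (h | h)
        · exact_mod_cast h
        · exact absurd h hP0'.ne'
      · intro h
        left
        exact_mod_cast h
    rw [h1]
    unfold UC Cov
    rw [card_eq_zero, filter_eq_empty_iff]
    have hper : ∀ l k, (∃ p ∈ F, Kill p n (l + MP F * k)) ↔ ∃ p ∈ F, Kill p n l := by
      intro l k
      refine exists_congr fun p => and_congr_right fun hp => ?_
      exact kill_add _ l n ((hPd p hp).mul_right k)
    constructor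
    · intro h l
      have h2 := h (mem_range.2 (Nat.mod_lt l hP0))
      push Not at h2
      rw [← hper (l % MP F) (l / MP F), Nat.mod_add_div] at h2
      exact h2
    · intro h l _ hl
      obtain ⟨p, hp, hk⟩ := h l
      exact hl p hp hk

end Pool.Agent.H94.SF
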